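import Mathlib
import Pool.Agent.H525.EX.Stm2

/-!
# Task EX/GB (helper539): assembly of the equations `A`, `B` for the global arrays
-/

set_option autoImplicit false

namespace Pool.Agent.H539.EX

open Polynomial UniqueFactorizationMonoid
open Pool.Agent.H985.Chow (mob)
open Pool.Agent.H525.QF
open Pool.Agent.H525.EX
open scoped Classical

section main

variable {K : Type} [Field K] [Fintype K]

lemma F_monic_I {m : ℕ} {v : K[X] × K[X]} (hv : v ∈ cI K m) : (F v).Monic := by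
  unfold cI at hv
  rw [Finset.mem_filter, Finset.mem_product, mem_lt, mem_mon] at hv
  obtain ⟨⟨h1, h2, h3⟩, -⟩ := hv
  have h4 : (X * v.2 ^ 4 : K[X]).Monic := monic_X.mul (h2.pow 4)
  have h5 : (X * v.2 ^ 4 : K[X]).natDegree = 1 + 4 * m := by
    rw [monic_X.natDegree_mul (h2.pow 4), natDegree_X, h2.natDegree_pow, h3]
  have h6 : v.1.natDegree ≤ m := by
    have h7 : v.1.degree ≤ (m : WithBot ℕ) := by
      have := Order.lt_add_one_iff (α := ℕ) |>.1 (Nat.lt_succ_self m)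
      rcases eq_or_ne v.1 0 with h8 | h8
      · rw [h8, degree_zero]
        exact bot_le
      · rw [degree_eq_natDegree h8] at h1 ⊢
        have h9 : v.1.natDegree < m + 1 := by exact_mod_cast h1
        exact_mod_cast (Nat.lt_succ_iff.1 h9)
    exact natDegree_le_of_degree_le h7
  unfold F
  refine h4.add_of_right ?_
  apply degree_lt_degree
  rw [h5]
  have h8 : (v.1 ^ 4).natDegree ≤ 4 * v.1.natDegree := natDegree_pow_le
  omega

lemma F_monic_II {m : ℕ} {v : K[X] × K[X]} (hv : v ∈ cII K m) : (F v).Monic := by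
  unfold cII at hv
  rw [Finset.mem_filter, Finset.mem_product, mem_lt, mem_mon] at hv
  obtain ⟨⟨⟨h1, h2⟩, h3⟩, -⟩ := hv
  have h4 : (v.1 ^ 4 : K[X]).Monic := h1.pow 4
  unfold F
  rcases eq_or_ne v.2 0 with h0 | h0
  · rw [h0]
    have h5 : (v.1 ^ 4 + X * (0 : K[X]) ^ 4 : K[X]) = v.1 ^ 4 := by ring
    rw [h5]
    exact h4
  refine h4.add_of_left ?_
  apply degree_lt_degree
  rw [h1.natDegree_pow, h2]
  rw [degree_eq_natDegree h0] at h3
  have h6 : v.2.natDegree < m := by exact_mod_cast h3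
  have h7 : (X * v.2 ^ 4 : K[X]).natDegree ≤ 1 + 4 * v.2.natDegree := by
    refine natDegree_mul_le.trans ?_
    rw [natDegree_X]
    have := natDegree_pow_le (p := v.2) (n := 4)
    omega
  omega

/-- the five-fold sum -/
noncomputable def S5 (K : Type) [Field K] [Fintype K] (k : ℕ)
    (Ψ : ℕ → ℕ → K[X] → K[X] → K[X] → ℝ) : ℝ :=
  ∑ l ∈ Finset.range (k + 1), ∑ i ∈ Finset.range (k + 1 - l),
    ∑ b ∈ (mon K l).filter (fun b => Squarefree b), ∑ g ∈ mon K i, ∑ g' ∈ mon K (k - l - i),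
      Ψ l i b g g'

lemma S5_congr {k : ℕ} {Ψ Φ : ℕ → ℕ → K[X] → K[X] → K[X] → ℝ}
    (h : ∀ l i : ℕ, l + i ≤ k → ∀ b g g' : K[X], b ∈ mon K l → Squarefree b → g ∈ mon K i →
      g' ∈ mon K (k - l - i) → Ψ l i b g g' = Φ l i b g g') : S5 K k Ψ = S5 K k Φ := by
  unfold S5
  refine Finset.sum_congr rfl fun l hl => Finset.sum_congr rfl fun i hi =>
    Finset.sum_congr rfl fun b hb => Finset.sum_congr rfl fun g hg =>
    Finset.sum_congr rfl fun g' hg' => ?_
  rw [Finset.mem_range] at hl hi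
  rw [Finset.mem_filter] at hb
  exact h l i (by omega) b g g' hb.1 hb.2 hg hg'

lemma S5_mul (k : ℕ) (c : ℝ) (Ψ : ℕ → ℕ → K[X] → K[X] → K[X] → ℝ) :
    c * S5 K k Ψ = S5 K k (fun l i b g g' => c * Ψ l i b g g') := by
  unfold S5
  simp only [Finset.mul_sum]

lemma S5_sub (k : ℕ) (Ψ Φ : ℕ → ℕ → K[X] → K[X] → K[X] → ℝ) :
    S5 K k Ψ - S5 K k Φ = S5 K k (fun l i b g g' => Ψ l i b g g' - Φ l i b g g') := by
  unfold S5
  simp only [Finset.sum_sub_distrib]

lemma S5_sum {α : Type} (S : Finset α) (k : ℕ) (Ψ : α → ℕ → ℕ → K[X] → K[X] → K[X] → ℝ) :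
    ∑ x ∈ S, S5 K k (Ψ x) = S5 K k (fun l i b g g' => ∑ x ∈ S, Ψ x l i b g g') := by
  unfold S5
  rw [Finset.sum_comm]
  refine Finset.sum_congr rfl fun l _ => ?_
  rw [Finset.sum_comm]
  refine Finset.sum_congr rfl fun i _ => ?_
  rw [Finset.sum_comm]
  refine Finset.sum_congr rfl fun b _ => ?_
  rw [Finset.sum_comm]
  refine Finset.sum_congr rfl fun g _ => ?_
  rw [Finset.sum_comm]

lemma S5_swap (k : ℕ) (Ψ : ℕ → ℕ → K[X] → K[X] → K[X] → ℝ) :
    S5 K k Ψ = S5 K k (fun l i b g g' => Ψ l (k - l - i) b g' g) := by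
  unfold S5
  refine Finset.sum_congr rfl fun l hl => ?_
  rw [Finset.mem_range] at hl
  rw [← Finset.sum_range_reflect]
  refine Finset.sum_congr rfl fun i hi => ?_
  rw [Finset.mem_range] at hi
  have e1 : k + 1 - l - 1 - i = k - l - i := by omega
  have e2 : k - l - (k - l - i) = i := by omega
  rw [e1, e2]
  refine Finset.sum_congr rfl fun b _ => ?_
  rw [Finset.sum_comm]

lemma SG_symm {h : K[X] → ℕ → ℝ[X]} {s : K[X] → ℕ → ℕ → ℕ → ℝ} (hs : HypE h s) (b g g' : K[X]) :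
    SG s b g' g = SG s b g g' := by
  unfold SG
  rw [mul_right_comm b g' g]
  refine Finset.prod_congr rfl fun P _ => ?_
  exact hs.2.1 P _ _ _

/-- the number of the pairs -/
lemma inner (CC : ℕ → Finset (K[X] × K[X])) (n a : ℕ) (b g : K[X])
    (hl : ∑ j ∈ Finset.range (n + 1), ∑ G ∈ mon K j,
      ((CC (n - j)).filter (fun v => g ^ 2 * b ∣ G ^ 2 * F v)).card = a) (c : ℝ) :
    ∑ j ∈ Finset.range (n + 1), ∑ G ∈ mon K j, ∑ v ∈ CC (n - j),
      (if g ^ 2 * b ∣ G ^ 2 * F v then c else 0) = c * (a : ℝ) := by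
  rw [← hl]
  push_cast
  rw [Finset.mul_sum]
  refine Finset.sum_congr rfl fun j _ => ?_
  rw [Finset.mul_sum]
  refine Finset.sum_congr rfl fun G _ => ?_
  rw [← Finset.sum_filter, Finset.sum_const, nsmul_eq_mul, mul_comm]

/-- the expansion of the sums of the coefficients of the weights -/
lemma expn (hE : S_exp) {h : K[X] → ℕ → ℝ[X]} {s : K[X] → ℕ → ℕ → ℕ → ℝ} (hs : HypE h s)
    (CC : ℕ → Finset (K[X] × K[X])) (hm : ∀ m, ∀ v ∈ CC m, (F v).Monic) (a : ℕ → K[X] → ℕ) (n k : ℕ)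
    (hl : ∀ (i : ℕ) (b g : K[X]), b.Monic → Squarefree b → g ∈ mon K i →
      ∑ j ∈ Finset.range (n + 1), ∑ G ∈ mon K j,
        ((CC (n - j)).filter (fun v => g ^ 2 * b ∣ G ^ 2 * F v)).card =
        (if i ≤ n then a (n - i) b else 0)) :
    ∑ j ∈ Finset.range (n + 1), ∑ G ∈ mon K j, ∑ v ∈ CC (n - j), (W h (G ^ 2 * F v)).coeff k =
      S5 K k (fun _ i b g g' => (mob b : ℝ) * (Fintype.card K : ℝ) ^ i * SG s b g g' *
        ((if i ≤ n then a (n - i) b else 0 : ℕ) : ℝ)) := by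
  have h1 : ∀ j ∈ Finset.range (n + 1), ∀ G ∈ mon K j, ∀ v ∈ CC (n - j),
      (W h (G ^ 2 * F v)).coeff k = S5 K k (fun _ i b g g' =>
        if g ^ 2 * b ∣ G ^ 2 * F v then (mob b : ℝ) * (Fintype.card K : ℝ) ^ i * SG s b g g'
        else 0) := by
    intro j _ G hG v hv
    rw [mem_mon] at hG
    exact hE K h s hs (G ^ 2 * F v) ((hG.1.pow 2).mul (hm _ v hv)) k
  rw [Finset.sum_congr rfl fun j hj => Finset.sum_congr rfl fun G hG =>
    Finset.sum_congr rfl fun v hv => h1 j hj G hG v hv]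
  simp only [S5_sum]
  refine S5_congr fun l i _ b g g' hb hbs hg _ => ?_
  rw [mem_mon] at hb
  exact inner CC n _ b g (hl i b g hb.1 hbs hg) _

lemma AI_eq (b : K[X]) (n i : ℕ) :
    AI b ((n : ℤ) - i) = ((if i ≤ n then A (n - i) b else 0 : ℕ) : ℝ) := by
  unfold AI
  by_cases h : i ≤ n
  · have e : ((n : ℤ) - i).toNat = n - i := by omega
    rw [if_neg (by omega), if_pos h, e]
  · rw [if_pos (by omega), if_neg h, Nat.cast_zero]

lemma AII_eq (b : K[X]) (n i : ℕ) :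
    AII b ((n : ℤ) - i) = ((if i ≤ n then A' (n - i) b else 0 : ℕ) : ℝ) := by
  unfold AII
  by_cases h : i ≤ n
  · have e : ((n : ℤ) - i).toNat = n - i := by omega
    rw [if_neg (by omega), if_pos h, e]
  · rw [if_pos (by omega), if_neg h, Nat.cast_zero]

lemma gI_eq [CharP K 2] (hE : S_exp) (hL : S_lat) {h : K[X] → ℕ → ℝ[X]}
    {s : K[X] → ℕ → ℕ → ℕ → ℝ} (hs : HypE h s) (n e : ℤ) (k : ℕ) (hk : n + e = k) :
    gI h n e = S5 K k (fun _ i b g g' => (mob b : ℝ) * SG s b g g' *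
      ((Fintype.card K : ℝ) ^ ((i : ℤ) - n - 1) * AI b (n - i))) := by
  have hq0 : (Fintype.card K : ℝ) ≠ 0 := by exact_mod_cast Fintype.card_ne_zero
  unfold gI
  by_cases hn : 0 ≤ n
  · obtain ⟨N, rfl⟩ := Int.eq_ofNat_of_zero_le hn
    rw [if_pos ⟨hn, by omega⟩, hk, Int.toNat_natCast, Int.toNat_natCast]
    unfold GI
    rw [expn hE hs (cI K) (fun m v hv => F_monic_I hv) (fun m b => A m b) N k
      (fun i b g hb hbs hg => hL K N i b g hb hbs hg), S5_mul]
    refine S5_congr fun l i _ b g g' _ _ _ _ => ?_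
    rw [AI_eq]
    have h1 : (Fintype.card K : ℝ) ^ ((i : ℤ) - (N : ℤ) - 1) =
        ((Fintype.card K : ℝ) ^ (N + 1))⁻¹ * (Fintype.card K : ℝ) ^ i := by
      rw [show ((i : ℤ) - (N : ℤ) - 1) = (i : ℤ) - ((N + 1 : ℕ) : ℤ) by push_cast; ring,
        zpow_sub₀ hq0, zpow_natCast, zpow_natCast, div_eq_mul_inv, mul_comm]
    rw [h1]
    ring
  · rw [if_neg (fun hh => hn hh.1)]
    symm
    have h1 : S5 K k (fun _ i b g g' => (mob b : ℝ) * SG s b g g' *
        ((Fintype.card K : ℝ) ^ ((i : ℤ) - n - 1) * AI b (n - i))) =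
        S5 K k (fun _ _ _ _ _ => 0) := by
      refine S5_congr fun l i _ b g g' _ _ _ _ => ?_
      have h2 : AI b (n - i) = 0 := by
        unfold AI
        rw [if_pos (by omega)]
      rw [h2, mul_zero, mul_zero]
    rw [h1]
    unfold S5
    simp only [Finset.sum_const_zero]

lemma gII_eq [CharP K 2] (hE : S_exp) (hL : S_lat') {h : K[X] → ℕ → ℝ[X]}
    {s : K[X] → ℕ → ℕ → ℕ → ℝ} (hs : HypE h s) (n e : ℤ) (k : ℕ) (hk : n + e = k) :
    gII h n e = S5 K k (fun _ i b g g' => (mob b : ℝ) * SG s b g g' *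
      ((Fintype.card K : ℝ) ^ ((i : ℤ) - n) * AII b (n - i))) := by
  have hq0 : (Fintype.card K : ℝ) ≠ 0 := by exact_mod_cast Fintype.card_ne_zero
  unfold gII
  by_cases hn : 0 ≤ n
  · obtain ⟨N, rfl⟩ := Int.eq_ofNat_of_zero_le hn
    rw [if_pos ⟨hn, by omega⟩, hk, Int.toNat_natCast, Int.toNat_natCast]
    unfold GII
    rw [expn hE hs (cII K) (fun m v hv => F_monic_II hv) (fun m b => A' m b) N k
      (fun i b g hb hbs hg => hL K N i b g hb hbs hg), S5_mul]
    refine S5_congr fun l i _ b g g' _ _ _ _ => ?_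
    rw [AII_eq]
    have h1 : (Fintype.card K : ℝ) ^ ((i : ℤ) - (N : ℤ)) =
        ((Fintype.card K : ℝ) ^ N)⁻¹ * (Fintype.card K : ℝ) ^ i := by
      rw [zpow_sub₀ hq0, zpow_natCast, zpow_natCast, div_eq_mul_inv, mul_comm]
    rw [h1]
    ring
  · rw [if_neg (fun hh => hn hh.1)]
    symm
    have h1 : S5 K k (fun _ i b g g' => (mob b : ℝ) * SG s b g g' *
        ((Fintype.card K : ℝ) ^ ((i : ℤ) - n) * AII b (n - i))) =
        S5 K k (fun _ _ _ _ _ => 0) := by
      refine S5_congr fun l i _ b g g' _ _ _ _ => ?_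
      have h2 : AII b (n - i) = 0 := by
        unfold AII
        rw [if_pos (by omega)]
      rw [h2, mul_zero, mul_zero]
    rw [h1]
    unfold S5
    simp only [Finset.sum_const_zero]

/-- the symmetry of the sum -/
lemma symm5 {h : K[X] → ℕ → ℝ[X]} {s : K[X] → ℕ → ℕ → ℕ → ℝ} (hs : HypE h s)
    (D : K[X] → ℤ → ℝ) (c : ℤ)
    (hD : ∀ (b : K[X]) (l : ℕ), b.Monic → Squarefree b → b.natDegree = l → ∀ m : ℤ,
      D b m = D b (l - m - c)) (n e : ℤ) (k : ℕ) (hk : n + e = k - c) :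
    S5 K k (fun _ i b g g' => (mob b : ℝ) * SG s b g g' * D b (n - i)) =
      S5 K k (fun _ i b g g' => (mob b : ℝ) * SG s b g g' * D b (e - i)) := by
  rw [S5_swap k (fun _ i b g g' => (mob b : ℝ) * SG s b g g' * D b (e - i))]
  refine S5_congr fun l i hli b g g' hb hbs _ _ => ?_
  rw [mem_mon] at hb
  rw [SG_symm hs, hD b l hb.1 hbs hb.2 (n - i)]
  have h1 : (l : ℤ) - (n - i) - c = e - ((k - l - i : ℕ) : ℤ) := by omega
  rw [h1]

end main

/-- **GB.** -/
theorem t_gb : S_gb := by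
  intro hE hL hL' hS K _ _ _ h s hs
  have hq0 : (Fintype.card K : ℝ) ≠ 0 := by exact_mod_cast Fintype.card_ne_zero
  obtain ⟨q, hq⟩ : ∃ q : ℝ, q = Fintype.card K := ⟨_, rfl⟩
  rw [← hq] at hq0
  constructor
  · intro n e
    rw [← hq]
    by_cases hk : 0 ≤ n + e
    · obtain ⟨k, hk'⟩ := Int.eq_ofNat_of_zero_le hk
      obtain ⟨D, hD⟩ : ∃ D : K[X] → ℤ → ℝ, ∀ b m, D b m = q ^ (-m) * (AII b m - q * AI b (m - 1)) :=
        ⟨fun b m => q ^ (-m) * (AII b m - q * AI b (m - 1)), fun _ _ => rfl⟩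
      have hmain : ∀ n e : ℤ, n + e = k → gII h n e - q * gI h (n - 1) (e + 1) =
          S5 K k (fun _ i b g g' => (mob b : ℝ) * SG s b g g' * D b (n - i)) := by
        intro n e hne
        rw [gII_eq hE hL' hs n e k hne, gI_eq hE hL hs (n - 1) (e + 1) k (by omega), ← hq, S5_mul,
          S5_sub]
        refine S5_congr fun l i _ b g g' _ _ _ _ => ?_
        rw [hD]
        have e1 : (i : ℤ) - (n - 1) - 1 = -(n - i) := by ring
        have e2 : (i : ℤ) - n = -(n - i) := by ring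
        have e3 : n - 1 - (i : ℤ) = n - i - 1 := by ring
        rw [e1, e2, e3]
        ring
      rw [hmain n e hk', hmain e n (by omega)]
      refine symm5 hs D 0 ?_ n e k (by omega)
      intro b l hb hbs hbl m
      have h1 := (hS K b l hb hbs hbl m).1
      rw [← hq] at h1
      rw [hD, hD, h1, ← mul_assoc, ← zpow_add₀ hq0]
      have e1 : -m + (2 * m - (l : ℤ)) = -((l : ℤ) - m - 0) := by ring
      have e2 : (l : ℤ) - m - 0 = l - m := by ring
      rw [e1, e2]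
    · unfold gII gI
      rw [if_neg (fun hh => hk hh.2), if_neg (fun hh => hk (by omega)),
        if_neg (fun hh => hk (by omega)), if_neg (fun hh => hk (by omega))]
  · intro n e
    by_cases hk : 0 ≤ n + e + 1
    · obtain ⟨k, hk'⟩ := Int.eq_ofNat_of_zero_le hk
      obtain ⟨D, hD⟩ : ∃ D : K[X] → ℤ → ℝ, ∀ b m, D b m = q ^ (-m - 1) * (q * AII b m - AI b m) :=
        ⟨fun b m => q ^ (-m - 1) * (q * AII b m - AI b m), fun _ _ => rfl⟩
      have hmain : ∀ n e : ℤ, n + e + 1 = k → gII h n (e + 1) - gI h n (e + 1) =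
          S5 K k (fun _ i b g g' => (mob b : ℝ) * SG s b g g' * D b (n - i)) := by
        intro n e hne
        rw [gII_eq hE hL' hs n (e + 1) k (by omega), gI_eq hE hL hs n (e + 1) k (by omega), ← hq,
          S5_sub]
        refine S5_congr fun l i _ b g g' _ _ _ _ => ?_
        rw [hD]
        have e1 : (i : ℤ) - n - 1 = -(n - i) - 1 := by ring
        have e2 : q ^ ((i : ℤ) - n) = q ^ (-(n - (i : ℤ)) - 1) * q := by
          rw [← zpow_add_one₀ hq0]
          congr 1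
          ring
        rw [e1, e2]
        ring
      rw [hmain n e hk', hmain e n (by omega)]
      refine symm5 hs D 1 ?_ n e k (by omega)
      intro b l hb hbs hbl m
      have h1 := (hS K b l hb hbs hbl m).2
      rw [← hq] at h1
      rw [hD, hD, h1, ← mul_assoc, ← zpow_add₀ hq0]
      have e1 : -m - 1 + (2 * m + 1 - (l : ℤ)) = -((l : ℤ) - m - 1) - 1 := by ring
      rw [e1]
    · unfold gII gI
      rw [if_neg (fun hh => hk (by omega)), if_neg (fun hh => hk (by omega)),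
        if_neg (fun hh => hk (by omega)), if_neg (fun hh => hk (by omega))]

end Pool.Agent.H539.EX
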